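import Pool.Agent.K.MP_c3cac0_an.C0

set_option autoImplicit false

namespace Pool.Agent.Results.MP_c3cac0_an.Circle

open Pool.Agent.P.MP_c3cac0_an

theorem result :
    ∀ m : ℕ, 1 ≤ m → ∀ (τ : Fin m → ℂ) (t : ℝ), 0 < t → t < 1 → (∀ k, ‖τ k‖ = t) →
      ∃ ζ : ℂ, ‖ζ‖ < 1 ∧
        deriv (fun z : ℂ => z * ∏ k, (z - τ k) / (1 - starRingEnd ℂ (τ k) * z)) ζ = 0 ∧
        ‖ζ * ∏ k, (ζ - τ k) / (1 - starRingEnd ℂ (τ k) * ζ)‖ ≤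
          (m : ℝ) / (m + 1 - t ^ (2 * m)) *
            ‖deriv (fun z : ℂ => z * ∏ k, (z - τ k) / (1 - starRingEnd ℂ (τ k) * z)) 0‖ * ‖ζ‖ :=
  fun m hm τ t h0 h1 hτ =>
    finish τ (fun k => by rw [hτ]; exact h1) _ (equal_mod hm τ t h0 h1 hτ)

end Pool.Agent.Results.MP_c3cac0_an.Circle
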