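import Pool.Agent.P.MP_c3cac0_an.FourMain

set_option autoImplicit false

namespace Pool.Agent.Results.MP_c3cac0_an.FourSharp

theorem result :
    ∀ K : ℝ, K < 4 → ∃ m : ℕ, 1 ≤ m ∧ ∃ τ : Fin m → ℂ, (∀ k, τ k ≠ 0 ∧ ‖τ k‖ < 1) ∧
      ∀ ζ : ℂ, ‖ζ‖ < 1 →
        deriv (fun z : ℂ => z * ∏ k, (z - τ k) / (1 - starRingEnd ℂ (τ k) * z)) ζ = 0 →
        K * (‖deriv (fun z : ℂ => z * ∏ k, (z - τ k) / (1 - starRingEnd ℂ (τ k) * z)) 0‖ * ‖ζ‖) <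
          ‖ζ * ∏ k, (ζ - τ k) / (1 - starRingEnd ℂ (τ k) * ζ)‖ :=
  fun _ hK => Pool.Agent.P.MP_c3cac0_an.Four.main hK

end Pool.Agent.Results.MP_c3cac0_an.FourSharp
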