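import Pool.Agent.K.MP_c3cac0_an.C0

set_option autoImplicit false

namespace Pool.Agent.Results.MP_c3cac0_an.Line

open Pool.Agent.P.MP_c3cac0_an

theorem result :
    ∀ m : ℕ, 1 ≤ m → ∀ τ : Fin m → ℂ, (∀ k, τ k ≠ 0 ∧ ‖τ k‖ < 1) →
      (∃ u : ℂ, ∀ k, ∃ r : ℝ, τ k = r * u) →
      ∃ ζ : ℂ, ‖ζ‖ < 1 ∧
        deriv (fun z : ℂ => z * ∏ k, (z - τ k) / (1 - starRingEnd ℂ (τ k) * z)) ζ = 0 ∧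
        ‖ζ * ∏ k, (ζ - τ k) / (1 - starRingEnd ℂ (τ k) * ζ)‖ ≤
          ‖deriv (fun z : ℂ => z * ∏ k, (z - τ k) / (1 - starRingEnd ℂ (τ k) * z)) 0‖ * ‖ζ‖ := by
  rintro m hm τ hτ ⟨u, hu⟩
  have key : ∃ ζ : ℂ, ‖ζ‖ < 1 ∧ N τ ζ = 0 ∧ ‖Q τ ζ‖ ≤ 1 * (∏ k, ‖τ k‖) * ‖Qs τ ζ‖ := by
    simpa only [one_mul] using line hm τ hτ u hu
  simpa only [one_mul] using finish τ (fun k => (hτ k).2) 1 key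

end Pool.Agent.Results.MP_c3cac0_an.Line
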